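import Mathlib
import Pool.Agent.H835Z.KsdDefs
import Pool.Agent.H835Z.KsdC

set_option autoImplicit false

namespace Pool.Agent.Results.MP_bdd006_gt.APerfect

open Pool.Agent.H835Z.Ksd

/-- If every closed subset of `X` is a `Gδ`, `C_p(Y)` admits a continuous open map into `C_p(X)`
(for instance a homeomorphism) and `Y` is a `K_{σδ}`-space, then `X` is a `K_{σδ}`-space. -/
theorem result :
    ∀ (X Y : Type) [TopologicalSpace X] [TopologicalSpace Y] [T35Space X] [T35Space Y],
      (∀ F : Set X, IsClosed F → IsGδ F) →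
      (∃ Ψ : Cp Y → Cp X, Continuous Ψ ∧ IsOpenMap Ψ) →
      IsKSigmaDelta Y → IsKSigmaDelta X := by
  intro X Y _ _ _ _ hP ⟨Ψ, h1, h2⟩ hY
  exact perfect_case hP Ψ h1 h2 hY

end Pool.Agent.Results.MP_bdd006_gt.APerfect
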