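import Mathlib
import Pool.Agent.H835Z.KsdDefs
import Pool.Agent.H835Z.KsdB

set_option autoImplicit false

namespace Pool.Agent.Results.MP_bdd006_gt.BUniform

open Pool.Agent.H835Z.Ksd

/-- If `C_p(Y)` admits a uniformly continuous open map into `C_p(X)` (for instance a uniform
homeomorphism) and `Y` is a `K_{σδ}`-space, then `X` is a `K_{σδ}`-space. -/
theorem result :
    ∀ (X Y : Type) [TopologicalSpace X] [TopologicalSpace Y] [T35Space X] [T35Space Y],
      (∃ Ψ : Cp Y → Cp X, UniformContinuous Ψ ∧ IsOpenMap Ψ) →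
      IsKSigmaDelta Y → IsKSigmaDelta X := by
  intro X Y _ _ _ _ ⟨Ψ, h1, h2⟩ hY
  exact uniform_case Ψ h1 h2 hY

end Pool.Agent.Results.MP_bdd006_gt.BUniform
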